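import Pool.Agent.H649.PT.Gnc

set_option autoImplicit false

/-!
# Solutions to Post's problem in the sense of category

`TLe` (Turing reducibility of sets, given by their characteristic sequences, from Mathlib's
`TuringReducible`), `join` (`X ⊕ Y`) and `lam` (the uniform measure on the Cantor space) are
defined in `Helper227/Defs.lean`; `WE X e` (the `e`-th set computably enumerable relative to `X`)
and `jump X` (the Turing jump of `X`) in `Helper227/RD/Jump.lean`; `chr S` (the characteristic
sequence of `S`) in `H548R2/Post/Main.lean` (all in the library `Pool/Graph/R_seed8`).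
`Btw X Z` (`X <_T Z <_T X'`), `TEq X Y` (`X ≡_T Y`) and `Sig3 R` (`R` is `Σ⁰₃`, lightface) are
defined in `Pool/Agent/H649/PT/Trn.lean`. `IsMeagre` (Mathlib) refers to the Cantor space.

Let `W_e` be an operator with `W_e^X ≰_T X` for all `X` (parts 1 and 4), or a solution to Post's
problem, `X <_T W_e^X <_T X'` for all `X` (parts 2 and 3). No invariance is assumed.

1. If `C` does not compute the halting problem then `W_e^A ≤_T A ⊕ C` only for a meager set of
   oracles `A`.
2. A dichotomy: for each set `C`, for comeager many `A`, `W_e^A ≤_T A ⊕ C` if and only if `C`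
   computes the halting problem. The same in the cylinder above each oracle `Z`: for comeager many
   `A`, `W_e^(Z ⊕ A) ≤_T (Z ⊕ A) ⊕ C` if and only if `Z' ≤_T Z ⊕ C`.
3. So no solution to Post's problem has the degree of `A ⊕ C`, for a fixed set `C`, on a nonmeager
   set of oracles `A` (nor for the oracles `Z ⊕ A`, `A` in a nonmeager set). On the other hand
   `A ↦ A ⊕ C` (`C` low, c.e. and not computable) solves Post's problem for comeager many `A`, and
   some solution to Post's problem for all oracles has the degree of `A ⊕ C` for almost all `A` in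
   the sense of measure (`OneIndex` in this folder).
4. The transfer theorem (`SigmaThreeTransfer` in this folder), by which a solution on a `Σ⁰₃` class
   can be changed into a solution for all oracles without change of the degree on this class,
   fails for `Π⁰₃` classes: there are a `Π⁰₃` class `S`, which is comeager, and an index `v` such
   that `A <_T W_v^A <_T A'` for all `A ∈ S`, and `W_v^A ≡_T W_v^B` for all `A ≡_T B` in `S`, but
   each operator with `W_e^X ≰_T X` for all `X` has `W_e^A ≤_T W_v^A` only on a meager set.

Proof of 1: if `C` does not compute the halting problem `K`, there is an `X ≥_T C` which meets all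
dense open sets c.e. in `C`. The set `C` is coded in `X` by blocks `1ⁿ 0 ρ b`, where `b` is the next
digit of `C` and the length of `ρ` is the stage at which `n` is enumerated in `K`. If for all
`n ∈ K` each string `ρ` which leads to the dense set is longer than this stage then `C` computes
`K`. If a program computes `W_e^A` from `A ⊕ C` for densely many `A` then the program works for
such an `X`, and `W_e^X ≤_T X`.
-/

namespace Pool.Agent.Results.MP_57825d_lc.CategoryDichotomy

open MeasureTheory Pool.Agent.Helper227 Pool.Agent.H548R2.Post Pool.Agent.H649.PT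

theorem result :
    -- 1. operators with `W_e^X ≰_T X`
    (∀ e : ℕ, (∀ X, ¬ TLe (chr (WE X e)) X) → ∀ C : ℕ → Bool,
      ¬ TLe (jump fun _ => false) C →
      IsMeagre {A | TLe (chr (WE A e)) (join A C)}) ∧
    -- 2. the dichotomy for solutions to Post's problem
    (∀ e : ℕ, (∀ X, Btw X (chr (WE X e))) → ∀ C : ℕ → Bool,
      IsMeagre {A | ¬ (TLe (chr (WE A e)) (join A C) ↔ TLe (jump fun _ => false) C)} ∧
      ∀ Z : ℕ → Bool, IsMeagre {A | ¬ (TLe (chr (WE (join Z A) e)) (join (join Z A) C) ↔
        TLe (jump Z) (join Z C))}) ∧
    -- 3. joins with a fixed set: category and measure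
    ((∀ e : ℕ, (∀ X, Btw X (chr (WE X e))) → ∀ C : ℕ → Bool,
        IsMeagre {A | TEq (chr (WE A e)) (join A C)} ∧
        ∀ Z : ℕ → Bool, IsMeagre {A | TEq (chr (WE (join Z A) e)) (join (join Z A) C)}) ∧
      ∃ (C : ℕ → Bool) (e : ℕ), (∀ X, Btw X (chr (WE X e))) ∧
        IsMeagre {A | ¬ Btw A (join A C)} ∧ ∀ᵐ A ∂lam, TEq (chr (WE A e)) (join A C)) ∧
    -- 4. the transfer theorem fails for `Π⁰₃` classes
    ∃ (S : (ℕ → Bool) → Prop) (v : ℕ), (Sig3 fun _ A => ¬ S A) ∧ IsMeagre {A | ¬ S A} ∧
      (∀ A, S A → Btw A (chr (WE A v))) ∧
      (∀ A B, S A → S B → TEq A B → TEq (chr (WE A v)) (chr (WE B v))) ∧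
      ∀ e : ℕ, (∀ X, ¬ TLe (chr (WE X e)) X) →
        IsMeagre {A | TLe (chr (WE A e)) (chr (WE A v))} := by
  refine ⟨fun e he C hC => meagre_id he hC, fun e he C => ⟨(dichotomy' he C).1, fun Z =>
    (dichotomy he Z C).1⟩, ⟨fun e he C => ⟨(dichotomy' he C).2, fun Z => (dichotomy he Z C).2⟩,
    aev_cat⟩, pi3_fails⟩

end Pool.Agent.Results.MP_57825d_lc.CategoryDichotomy
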