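import Pool.Agent.H649.NL.Ext

set_option autoImplicit false

/-!
# Extension of partial solutions to Post's problem, with all 3-generic and all 2-random degrees

`TLe` (Turing reducibility of sets, given by their characteristic sequences, from Mathlib's
`TuringReducible`) and `MLR Z A` (`A` is Martin-Löf random relative to `Z`) are defined in
`Helper227/Defs.lean`; `WE X e` (the `e`-th set computably enumerable relative to `X`) and `jump X`
(the Turing jump of `X`) in `Helper227/RD/Jump.lean`; `chr S` (the characteristic sequence of `S`)
in `H548R2/Post/Main.lean` (all in the library `Pool/Graph/R_seed8`). `Btw X Z`
(`X <_T Z <_T X'`), `TEq X Y` (`X ≡_T Y`) and `Sig3 R` (the relation `R` between numbers and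
oracles is `Σ⁰₃`, lightface) are defined in `Pool/Agent/H649/PT/Trn.lean`, and `Gen1 Z A` (`A` is
1-generic relative to `Z`: for each set of strings c.e. in `Z`, some initial segment of `A` is in
the set or has no extension in it) in `Pool/Agent/H649/PT/Gnc.lean`; so `Gen1 0'' A` says that `A`
is 3-generic, and `MLR 0' A` that `A` is 2-random.

Let `R` be a `Σ⁰₃` relation between indices `v` and oracles `A`, such that `W_v^A` lies strictly
between `A` and `A'` whenever `R v A`. Then there is ONE index `e` such that `X <_T W_e^X <_T X'`
for ALL oracles `X`; for all `X` whose degree contains some `B` with `R w B` for some `w`,
`W_e^X ≡_T W_v^A` for some `v`, `A` with `R v A` and `A ≡_T X`; and `W_e^X ≡_T W_e^Y` for ALL `X`,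
`Y` of the degree of a set `D` which is 3-generic or 2-random, if this degree does not contain any
`B` with `R w B` for some `w`. So if the values given by `R` agree on a degree then `W_e` is degree
invariant on it, and if they agree on all degrees then `W_e` has these values, and is also degree
invariant on all 3-generic and all 2-random degrees. `OneIndex` (this folder) is an application.

In particular (the last part of the theorem), the question has a positive answer if and only if
there is such a relation `R`, whose values agree on each degree, with the property that each degree
which does not contain a 3-generic or 2-random set contains some `A` with `R v A` for some `v`. So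
it is enough to solve the problem for some members of the degrees which are neither 3-generic nor
2-random, with indices which depend on the member, as long as the choice is `Σ⁰₃`.

Proof, without the random degrees. If the class of the `X` with `R v A`, `A ≡_T X` for some `v`, `A`
(the domain of `R`) is not meager then it contains all 3-generic degrees, and the transfer theorem
(`SigmaThreeTransfer`, this folder, without its compatibility condition) suffices. Otherwise it is
a countable union of nowhere dense classes given by `Π⁰₂` conditions with fixed witnesses. On the
sufficiently generic sets, Turing equivalence is an increasing union of finite equivalence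
relations: on the level `m` the classes of two sets `X`, `Y`, which are reduced to each other by two
given programs on an open set of generic `X`, are merged. The plans for the merging are `Π⁰₂`
conditions which do not depend on the oracle. To each oracle `X` and each level `m` there belongs a
set `J_m(X) ≡_T X`, the join of the members of the class of `X` (for all `X`, also those which are
not generic, for which the plans need not succeed). The next step for `J_m(X)` is guessed by the
least of countably many `Π⁰₂` conditions: either one of the conditions of the level `m` for being in
the domain of `R` (a leaf of the tree), or an infinite output for `J_{m+1}(X)`. An oracle in the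
domain of `R` reaches a leaf, and a 3-generic oracle never does; `J_m(X) = J_m(Y)` for some `m` if
`X` is 3-generic and `X ≡_T Y`. The operators `W_m` are built simultaneously, by a nested infinite
injury construction, such that `Z ⊕ W_m(Z) ≡_T Z' ⊕ W_{m+1}(Z')` for `Z = J_m(X)` and
`Z' = J_{m+1}(X)`, and such that `Z ⊕ W_m(Z)` has the degree given by `R` at a leaf. The `m`-th
programs (for the requirements that `W_0(X)` is not computable in `X`, and that `X ⊕ W_0(X)` does
not compute `X'`) are treated at the level `m`, simultaneously for all `2^m` members of a class,
with finite injury; the lower levels predict which elements the members of the class will receive.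

The random degrees. If the domain of `R` has positive measure then it contains all 2-random degrees
(a relative version of Kučera's lemma on tails: a `Π⁰₂` class of positive measure contains a closed
class of positive measure, effectively in the halting problem). Otherwise it does not contain any
2-random degree, because 2-random sets are in no `Π⁰₂` class of measure zero; then the pairs of a
2-random set `A` and an index of the operator `A ↦ A ⊕ C`, for a low c.e. set `C` which is not
computable, are added to `R`.
-/

namespace Pool.Agent.Results.MP_57825d_lc.GenericExtension

open Pool.Agent.Helper227 Pool.Agent.H548R2.Post Pool.Agent.H649.PT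

theorem result :
    -- the extension theorem
    (∀ R : ℕ → (ℕ → Bool) → Prop, Sig3 R →
      (∀ v A, R v A → Btw A (chr (WE A v))) →
      ∃ e : ℕ,
        -- condition (i) for all oracles
        (∀ X, Btw X (chr (WE X e))) ∧
        -- on the degrees in the domain of `R`, `W_e` takes values given by `R`
        (∀ w B X, R w B → TEq B X →
          ∃ v A, R v A ∧ TEq A X ∧ TEq (chr (WE A v)) (chr (WE X e))) ∧
        -- `W_e` is degree invariant on the other 3-generic degrees and 2-random degrees
        ∀ D, (Gen1 (jump^[2] fun _ => false) D ∨ MLR (jump fun _ => false) D) →
          (∀ v B, R v B → ¬ TEq B D) →
          ∀ X Y, TEq X D → TEq Y D → TEq (chr (WE X e)) (chr (WE Y e))) ∧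
    -- the question is about the degrees which are neither 3-generic nor 2-random
    ((∃ e : ℕ, (∀ X, Btw X (chr (WE X e))) ∧
        ∀ X Y, TEq X Y → TEq (chr (WE X e)) (chr (WE Y e))) ↔
      ∃ R : ℕ → (ℕ → Bool) → Prop, Sig3 R ∧ (∀ v A, R v A → Btw A (chr (WE A v))) ∧
        (∀ v w A B, R v A → R w B → TEq A B → TEq (chr (WE A v)) (chr (WE B w))) ∧
        ∀ X, (∃ v A, R v A ∧ TEq A X) ∨
          ∃ D, (Gen1 (jump^[2] fun _ => false) D ∨ MLR (jump fun _ => false) D) ∧ TEq D X) :=
  ⟨fun _ hR h1 => Pool.Agent.H649.NL.extendM hR h1, Pool.Agent.H649.NL.q1_iff'⟩

end Pool.Agent.Results.MP_57825d_lc.GenericExtension
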