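import Pool.Agent.H649.NL.Hl

set_option autoImplicit false

/-!
# One solution to Post's problem, degree invariant on comeager many and on almost all degrees

`TLe` (Turing reducibility of sets, given by their characteristic sequences, from Mathlib's
`TuringReducible`), `join` (`X ⊕ Y`), `lam` (the uniform measure on the Cantor space) and `MLR Z A`
(`A` is Martin-Löf random relative to `Z`) are defined in `Helper227/Defs.lean`; `WE X e` (the
`e`-th set computably enumerable relative to `X`) and `jump X` (the Turing jump of `X`) in
`Helper227/RD/Jump.lean`; `chr S` (the characteristic sequence of `S`) in `H548R2/Post/Main.lean`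
(all in the library `Pool/Graph/R_seed8`). `TEq X Y` (`X ≡_T Y`) is defined in
`Pool/Agent/H649/PT/Trn.lean`, and `Gen1 Z A` (`A` is 1-generic relative to `Z`: for each set of
strings c.e. in `Z`, some initial segment of `A` is in the set or has no extension in it) in
`Pool/Agent/H649/PT/Gnc.lean`; so `Gen1 0'' A` says that `A` is 3-generic, and `MLR 0' A` that `A`
is 2-random. `IsStrictTotalOrder`, `ComputablePred`, `Acc` and `IsMeagre` (which refers to the
Cantor space) are Mathlib's. `jump^[n] fun _ => false` is the `n`-th jump `0^(n)` of the empty set.

Let `≺` be a computable linear ordering of the natural numbers, and let `W` be its well-founded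
part (the `n` without an infinite descending sequence below `n`; `Acc r n`). For `n` in `W` let
`H_n = {⟨m, x⟩ : m ≺ n, x ∈ (H_m)'}` (the jump hierarchy along `≺`; a version of `0^(α)`, where `n`
is the `α`-th number; for the usual ordering `H_n ≡_T 0^(n)`, which is stated and proved). There
are ONE index `e` and sets `C_n`, c.e. in and low over `H_n` and not computable in `H_n`, such that
`X <_T W_e^X <_T X'` for ALL `X`, and `W_e^X ≡_T W_e^Y` for ALL `X`, `Y` of the degree of `D` if
`D` is 3-generic or 2-random, or if `D = H_n` for some `n` in `W`, or if `D = H_n ⊕ A` for some `n`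
in `W` and some `A` which is random relative to `(H_n)'`; in the last two cases
`W_e^X ≡_T X ⊕ C_n`. So the SAME index satisfies condition (i) of the question everywhere and
condition (ii), without any uniformity or restriction on the reductions, on the degrees of comeager
many sets, on the degrees of almost all sets, and, for all `n` in `W`, on the degree of `H_n` and on
almost all degrees above `H_n` (the degrees of `H_n ⊕ A` for almost all `A`).

In particular there is one index for all the sets `0^(n)`, and for each computable ordinal `λ`
there is one index for all `0^(α)`, `α < λ` (where `≺` is a computable well-ordering, and `W`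
contains all numbers). If `≺` is Harrison's ordering, a computable linear ordering whose
well-founded part has the type `ω₁^CK`, this is one index for ALL computable ordinals `α` at once,
and its good degrees are cofinal in the hyperarithmetic degrees. (The existence of such an ordering
is not part of the formal statement.) Remark, also not part of it: by the theorem of Levin and
Kautz a noncomputable set which is 2-random for a computable measure has the degree of a 2-random
set; so condition (ii) holds on the degrees of almost all sets for every computable measure (if
there is a least `n`, since then `H_n` is empty, which covers the computable sets).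

By `CategoryDichotomy` (this folder) no solution has `W_e^A ≡_T A ⊕ C` on a nonmeager set of `A`,
for a fixed set `C`, so the method for the random sets cannot work for category; and the transfer
theorem (`SigmaThreeTransfer`, this folder), which patches solutions on `Σ⁰₃` classes, fails for
comeager `Π⁰₃` classes.

Proof. The theorem is an application of the extension theorem (`GenericExtension` in this folder):
for each `Σ⁰₃` relation `R` between indices `v` and oracles `A`, such that `W_v^A` is strictly
between `A` and `A'` if `R v A`, there is an index `e` which satisfies (i) for all oracles, takes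
values given by `R` on the degrees of the oracles in `R` (where the values of `R` need not agree),
and is degree invariant on the degrees of all 3-generic and all 2-random sets which are not in such
a degree. Here `R` consists of the pairs of one index and a set `K ⊕ A`, where `K` is a jump
hierarchy along the numbers below some `n`, and `A` is empty or random relative to `K'`; this
relation is `Σ⁰₃`. The value is `(K ⊕ A) ⊕ W_c^K` for a low operator `W_c`. If `n` is in `W` then
`K = H_n`; the other `K` (the pseudo-hierarchies) compute all `(H_m)'` with `m` in `W`. A random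
`A` computes together with `H_n` neither `C_n` nor `(H_n)'`, and together with `C_n` not `(H_n)'` (a
majority vote argument, relative to `H_n`, with explicit Martin-Löf tests); so the degree of
`H_n ⊕ A` contains no other set of this form with a different `K`.
-/

namespace Pool.Agent.Results.MP_57825d_lc.OneIndex

open MeasureTheory Pool.Agent.Helper227 Pool.Agent.H548R2.Post Pool.Agent.H649.PT

theorem result :
    ∀ r : ℕ → ℕ → Prop, IsStrictTotalOrder ℕ r →
      ComputablePred (fun p : ℕ × ℕ => r p.1 p.2) →
      ∃ H : ℕ → ℕ → Bool,
        -- the jump hierarchy along the well-founded part of `r`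
        (∀ n, Acc r n → ∀ m x, H n (Nat.pair m x) = true ↔ r m n ∧ jump (H m) x = true) ∧
        -- for the usual ordering: the finite jumps of the empty set
        ((∀ m n, r m n ↔ m < n) → ∀ n, TEq (H n) (jump^[n] fun _ => false)) ∧
        ∃ (e : ℕ) (C : ℕ → ℕ → Bool),
          -- `C n` is c.e. in `H n`, strictly above it, and low over it
          (∀ n, (∃ i, C n = chr (WE (H n) i)) ∧ TLe (H n) (C n) ∧ ¬ TLe (C n) (H n) ∧
            TLe (jump (C n)) (jump (H n))) ∧
          -- condition (i) for all oracles
          (∀ X : ℕ → Bool, TLe X (chr (WE X e)) ∧ ¬ TLe (chr (WE X e)) X ∧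
            TLe (chr (WE X e)) (jump X) ∧ ¬ TLe (jump X) (chr (WE X e))) ∧
          -- condition (ii) on the degrees of 3-generic sets and of 2-random sets
          (∀ D : ℕ → Bool, Gen1 (jump^[2] fun _ => false) D ∨ MLR (jump fun _ => false) D →
            ∀ X Y : ℕ → Bool, TEq X D → TEq Y D → TEq (chr (WE X e)) (chr (WE Y e))) ∧
          -- the degree of the value, and so condition (ii), on the degree of `H n`
          (∀ (n : ℕ) (X : ℕ → Bool), Acc r n → TEq X (H n) → TEq (chr (WE X e)) (C n)) ∧
          -- the degree of the value on the random degrees above `H n`
          (∀ (n : ℕ) (A X : ℕ → Bool), Acc r n → MLR (jump (H n)) A →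
            TEq X (join (H n) A) → TEq (chr (WE X e)) (join X (C n))) ∧
          -- so condition (ii) on the random degrees above `H n`
          (∀ (n : ℕ) (A : ℕ → Bool), Acc r n → MLR (jump (H n)) A →
            ∀ X Y : ℕ → Bool, TEq X (join (H n) A) → TEq Y (join (H n) A) →
              TEq (chr (WE X e)) (chr (WE Y e))) ∧
          -- condition (ii) on comeager many degrees
          IsMeagre {D : ℕ → Bool | ¬ ∀ X Y : ℕ → Bool, TEq X D → TEq Y D →
            TEq (chr (WE X e)) (chr (WE Y e))} ∧
          -- condition (ii) on almost all degrees
          (∀ᵐ D ∂lam, ∀ X Y : ℕ → Bool, TEq X D → TEq Y D →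
            TEq (chr (WE X e)) (chr (WE Y e))) ∧
          -- condition (ii) on almost all degrees above `H n`
          ∀ n : ℕ, Acc r n → ∀ᵐ A ∂lam, ∀ X Y : ℕ → Bool, TEq X (join (H n) A) →
            TEq Y (join (H n) A) → TEq (chr (WE X e)) (chr (WE Y e)) := by
  intro r hr hc
  obtain ⟨H, hH⟩ := Pool.Agent.H649.NL.exists_Ha r
  refine ⟨H, hH, fun hr' n => ?_, ?_⟩
  · refine Pool.Agent.H649.NL.H_nat (fun n m x => ?_) n
    have h0 : r = fun a b => a < b := by
      funext a b
      exact propext (hr' a b)
    have h1 : Acc r n := by
      rw [h0]
      exact Nat.lt_wfRel.wf.apply n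
    rw [hH n h1, hr']
  obtain ⟨e, C, h1, h2, h3, h4⟩ := Pool.Agent.H649.NL.hierL hc (fun a b c h h' =>
    _root_.trans h h') (fun a b => trichotomous_of r a b) hH
  have h5 : ∀ (n : ℕ) (A : ℕ → Bool), Acc r n → MLR (jump (H n)) A →
      ∀ X Y : ℕ → Bool, TEq X (join (H n) A) → TEq Y (join (H n) A) →
        TEq (chr (WE X e)) (chr (WE Y e)) := by
    intro n A hn hA X Y hX hY
    exact TEq.trans (h3 n A X hn (Or.inr hA) hX.symm) (TEq.trans
      (join_congr (TEq.trans hX hY.symm)) (h3 n A Y hn (Or.inr hA) hY.symm).symm)
  refine ⟨e, C, h1, h2, h4, fun n X hn hX => ?_, fun n A X hn hA hX =>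
    h3 n A X hn (Or.inr hA) hX.symm, h5, ?_, ?_, ?_⟩
  · have h7 : TEq (join (H n) O) X :=
      ⟨TLe.tr (join_le (TuringReducible.refl _) (le_O_any _)) hX.2,
        TLe.tr hX.1 (le_join_left _ _)⟩
    exact TEq.trans (h3 n O X hn (Or.inl rfl) h7)
      ⟨join_le (TLe.tr hX.1 (h1 n).2.1) (TuringReducible.refl _), le_join_right _ _⟩
  · have h8 : {D : ℕ → Bool | ¬ ∀ X Y : ℕ → Bool, TEq X D → TEq Y D →
        TEq (chr (WE X e)) (chr (WE Y e))} ⊆
        {A | ¬ Gen1 (jump^[2] fun _ => false) A} := fun A hA hc => hA (h4 A (Or.inl hc))
    exact IsMeagre.mono h8 (gen1_comeagre (jump^[2] fun _ => false))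
  · filter_upwards [ae_mlr (jump O)] with D hD
    exact h4 D (Or.inr hD)
  · intro n hn
    filter_upwards [ae_mlr (jump (H n))] with A hA
    exact h5 n A hn hA

end Pool.Agent.Results.MP_57825d_lc.OneIndex
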