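import Pool.Agent.H649.PT.Cor

set_option autoImplicit false

/-!
# Selecting solutions to Post's problem in a `Σ⁰₃` way

`TLe` (Turing reducibility of sets, given by their characteristic sequences, from Mathlib's
`TuringReducible`) is defined in `Helper227/Defs.lean`; `WE X e` (the `e`-th set computably
enumerable relative to `X`) and `jump X` (the Turing jump of `X`) in `Helper227/RD/Jump.lean`;
`chr S` (the characteristic sequence of `S`) in `H548R2/Post/Main.lean`; `Via i X Y` (the program
`i` reduces `Y` to `X`) in `TH769/TP/Cod.lean` (all in the library `Pool/Graph/R_seed8`).
`Btw X Z` (`X <_T Z <_T X'`), `TEq X Y` (`X ≡_T Y`) and `Sig3 R` (the relation `R` between numbers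
and oracles is `Σ⁰₃`, lightface) are defined in `Pool/Agent/H649/PT/Trn.lean`.

Part 1 (the transfer theorem). Let `R` be a `Σ⁰₃` relation between indices `v` and oracles `A`,
such that `W_v^A` lies strictly between `A` and `A'` whenever `R v A`, and such that
`W_v^A ≡_T W_w^B` whenever `R v A`, `R w B` and `A ≡_T B`. Then there is ONE index `e` such that
`X <_T W_e^X <_T X'` for ALL oracles `X`, and `W_e^X ≡_T W_v^A` whenever `R v A` and `A ≡_T X`; so
`W_e` is degree invariant on the degrees of the oracles in `R`. On the other degrees `W_e^X` is low
over `X`.

So the question has a positive answer if there is such a relation `R` which meets every Turing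
degree: it is enough to solve the problem for one member (or some members) of each degree, with
indices which depend on it, as long as the choice is `Σ⁰₃`. This is stated and proved in a stronger
form in `GenericExtension` (this folder), where the compatibility of the values is not needed, but
the lowness in Part 1 is not obtained.

Part 2. Let `S` be a `Σ⁰₃` class of oracles for which the Turing equivalences inside `S` are in the
equivalence relation generated by one pair of programs; for example, a `Σ⁰₃` class without Turing
equivalent members, such as the perfect `Π⁰₁` classes of pairwise Turing incomparable sets. Then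
some solution to Post's problem for all oracles is degree invariant on all the degrees of the
members of `S`. (With `SingleTuringPair` of the library; there the invariance is for the pairs
`X`, `Y` related by these two programs, here for all oracles `X ≡_T Y` of the degrees of members.)

Part 3. Let `C` be the only member of a `Σ⁰₃` class (for example `C = 0^(n)` or `C = 0^(ω)`). A
degree invariant solution on the cone above `C` is Turing equivalent on this cone to an operator
which solves Post's problem for all oracles.

For the proof the conditions `R v A` and `X ≡_T A by two given programs`, with a given witness, are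
written as a list of `Π⁰₂` conditions on `X`. An infinite injury construction, uniform in `X`,
makes `W_e^X` Turing equivalent to `W_v^A` for the first true condition of the list; if no
condition of the list is true then `W_e^X` is low over `X` and not computable in `X`.
-/

namespace Pool.Agent.Results.MP_57825d_lc.SigmaThreeTransfer

open Pool.Agent.Helper227 Pool.Agent.H548R2.Post Pool.Agent.TH769.TP Pool.Agent.H649.PT
open Nat.Partrec (Code)

theorem result :
    -- 1. the transfer theorem
    (∀ R : ℕ → (ℕ → Bool) → Prop, Sig3 R →
      (∀ v A, R v A → Btw A (chr (WE A v))) →
      (∀ v w A B, R v A → R w B → TEq A B → TEq (chr (WE A v)) (chr (WE B w))) →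
      ∃ e : ℕ, (∀ X, Btw X (chr (WE X e))) ∧
        (∀ v A X, R v A → TEq A X → TEq (chr (WE A v)) (chr (WE X e))) ∧
        ∀ X, (∀ v A, R v A → ¬ TEq A X) → TLe (jump (chr (WE X e))) (jump X)) ∧
    -- 2. classes in which one pair of programs generates Turing equivalence
    (∀ (S : (ℕ → Bool) → Prop) (i j : Code), (Sig3 fun _ A => S A) →
      (∀ A B, S A → S B → TEq A B →
        Relation.EqvGen (fun X Y => Via i X Y ∧ Via j Y X) A B) →
      ∃ e : ℕ, (∀ X, Btw X (chr (WE X e))) ∧
        ∀ A X Y, S A → TEq A X → TEq A Y → TEq (chr (WE X e)) (chr (WE Y e))) ∧
    -- 3. solutions on cones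
    ∀ (C : ℕ → Bool) (v : ℕ), (Sig3 fun _ A => A = C) →
      (∀ A, TLe C A → Btw A (chr (WE A v))) →
      (∀ A B, TLe C A → TEq A B → TEq (chr (WE A v)) (chr (WE B v))) →
      ∃ e : ℕ, (∀ X, Btw X (chr (WE X e))) ∧
        (∀ X, TLe C X → TEq (chr (WE X v)) (chr (WE X e))) ∧
        ∀ X Y, TLe C X → TEq X Y → TEq (chr (WE X e)) (chr (WE Y e)) :=
  ⟨fun _ hR h1 h2 => transfer hR h1 h2, fun _ i j hS h => one_pair hS i j h,
    fun _ _ hC h1 h2 => on_cone hC h1 h2⟩

end Pool.Agent.Results.MP_57825d_lc.SigmaThreeTransfer
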